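import Pool.Agent.Helper78.TS.Col2Def
import Pool.Agent.Helper74.TS.Col0
import Pool.Agent.Helper34.TS.TwoFar

/-!
# `Base1` and the field `c` of `St1` from polynomial inequalities

Rows `x`, `y` with the heights `X`, `Y`, multipliers `nx`, `ny`, `k`; `K` the share of the slack of the
pair; `W'` the bound without the cell of the low class, `W + φ` the bound with it. `LB` is the list
without the cell, `LC` the list with the cell alone; both have two halves (the rows exchanged).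
-/

set_option autoImplicit false

namespace Pool.Agent.Helper36.TX

open Pool.Agent.Helper36.TS Pool.Agent.Helper74.TS Pool.Agent.Helper83.TS Pool.Agent.Helper34.TS
open Pool.Agent.Helper78.TS (V2 V2_swap Base1 Row)

/-- the symbols of a column -/
structure Q2 where
  nx : ℝ
  ny : ℝ
  k : ℝ
  K : ℝ
  X : ℝ
  Y : ℝ
  W : ℝ
  W' : ℝ

/-- the rows exchanged -/
def Q2.swap (q : Q2) : Q2 := ⟨q.ny, q.nx, q.k, q.K, q.Y, q.X, q.W, q.W'⟩

/-- the two slots and the pair -/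
noncomputable def Q2.V (q : Q2) (u v : ℝ) : ℝ := V2 q.nx q.ny q.k q.X q.Y u v

theorem Q2.V_swap (q : Q2) (u v : ℝ) : q.swap.V v u = q.V u v :=
  (V2_swap q.nx q.ny q.k q.X q.Y u v).symm

/-- the range of the entries -/
structure Bu (q : Q2) (u v : ℝ) : Prop where
  u0 : -(1 - q.X) ≤ u
  u1 : u ≤ 1
  v0 : -(1 - q.Y) ≤ v
  v1 : v ≤ 1

theorem Bu.swap {q : Q2} {u v : ℝ} (h : Bu q u v) : Bu q.swap v u := ⟨h.v0, h.v1, h.u0, h.u1⟩

theorem bu_of {q : Q2} {u v : ℝ} (h : Row q.X u) (h' : Row q.Y v) : Bu q u v :=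
  ⟨h.lo, h.hi, h'.lo, h'.hi⟩

/-- an own far cell -/
structure Fo (w A B : ℝ) : Prop where
  w0 : 0 ≤ w
  w1 : w ≤ 13 / 20
  A0 : 0 ≤ A
  B0 : 0 ≤ B
  s0 : w + 13 / 20 ≤ A + B
  s1 : A + B ≤ 1 + w

theorem Fo.s2 {w A B : ℝ} (F : Fo w A B) : w ≤ A + B := by linarith [F.s0]

/-- the cell `C` -/
structure Ce (w A B : ℝ) : Prop where
  w0 : 0 ≤ w
  w1 : w ≤ 1
  A0 : 0 ≤ A
  B0 : 0 ≤ B
  s1 : A + B ≤ 1 + w

theorem Ce.swap {w A B : ℝ} (C : Ce w A B) : Ce w B A :=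
  ⟨C.w0, C.w1, C.B0, C.A0, by linarith [C.s1]⟩

/-- **The list with `C` alone** for one cell `(w, A, B)` and the gain `φ`, one half: `v ≤ u`. Use
`vl_r1` ... `vl_r4` for the polynomial in the four regions. -/
structure LC (q : Q2) (qx qy : Prop) (w A B φ : ℝ) : Prop where
  c : ∀ u v : ℝ, 0 ≤ u → u ≤ 1 → 0 ≤ v → v ≤ 1 → v ≤ u → (qx → u ≤ 1 - A + q.X) →
    (qy → v ≤ 1 - B + q.Y) →
    st q.nx q.X u + st (q.ny - q.k) q.Y v + vl w A B ≤ q.W + φ
  cy : qy → 1 + q.Y ≤ B → B - 1 - q.Y ≤ 1 - q.Y → A ≤ w → ∀ u : ℝ, 0 ≤ u → u ≤ 1 →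
    (qx → u ≤ 1 - A + q.X) →
    st q.nx q.X u + (-((q.ny - q.k) * (B - 1 - q.Y)) - (1 - q.Y) * (B - 1 - q.Y) ^ 2 / 2
      + (B - 1 - q.Y) ^ 3 / 3) + vl w A B ≤ q.W + φ

/-- the volume with height `d`, coarse -/
noncomputable def f4 (w d : ℝ) : ℝ := w * (1 + w - d) ^ 2 / 4 - w ^ 3 / 4

/-- the signs of the symbols -/
structure Sg (q : Q2) : Prop where
  k0 : 0 ≤ q.k
  K0 : 0 ≤ q.K
  kx : q.k ≤ q.nx
  ky : q.k ≤ q.ny
  X0 : 0 ≤ q.X
  X1 : q.X ≤ 3 / 5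
  Y0 : 0 ≤ q.Y
  Y1 : q.Y ≤ 3 / 5

theorem Sg.swap {q : Q2} (h : Sg q) : Sg q.swap := ⟨h.k0, h.K0, h.ky, h.kx, h.Y0, h.Y1, h.X0, h.X1⟩

/-- **The list without `C`**, one half: the own far cell belongs to `x`. `s = X - u`. -/
structure LB (q : Q2) : Prop where
  n : ∀ u v : ℝ, 0 ≤ u → u ≤ 1 → 0 ≤ v → v ≤ 1 → v ≤ u →
    st q.nx q.X u + st (q.ny - q.k) q.Y v ≤ q.W'
  a1 : ∀ w B s v : ℝ, 0 ≤ w → w ≤ 13 / 20 → w ≤ s → s ≤ 1 → 0 ≤ v → v ≤ 1 → v ≤ 1 - B + q.Y →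
    w ≤ B → B ≤ 1 →
    mj (q.nx - q.k) (1 - q.X) q.X s + st q.ny q.Y v + (w * (1 + w - B) * B - w ^ 3 / 3) ≤ q.W'
  a2 : ∀ w B s v : ℝ, 0 ≤ w → w ≤ 13 / 20 → w ≤ s → s ≤ 1 → 0 ≤ v → v ≤ 1 → v ≤ 1 - B + q.Y →
    0 ≤ B → B ≤ w →
    mj (q.nx - q.k) (1 - q.X) q.X s + st q.ny q.Y v
      + (w * (1 + w - B) * B - (w ^ 3 - (w - B) ^ 3) / 3) ≤ q.W'
  b1 : ∀ w s v : ℝ, 0 ≤ w → w ≤ 13 / 20 → w ≤ s → s ≤ 1 → 0 ≤ v → v ≤ 1 →
    mj (q.nx - q.k) (1 - q.X) q.X s + st q.ny q.Y v - q.K * (v + w) + vm w ≤ q.W'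
  b2 : ∀ w d v : ℝ, 0 ≤ w → w ≤ 13 / 20 → q.X ≤ d → d ≤ 7 / 20 → 0 ≤ v → v ≤ 1 →
    0 ≤ q.X - d + v + w →
    -((q.nx - q.k) * w) - (1 - q.X) * w ^ 2 / 2 + w ^ 3 / 3 + st q.ny q.Y v
      - q.K * (q.X - d + v + w) + f4 w d ≤ q.W'
  b3 : ∀ w d v : ℝ, 0 ≤ w → w ≤ 13 / 20 → q.X ≤ d → d ≤ 7 / 20 → 0 ≤ v → v ≤ 1 →
    q.X - d + v + w ≤ 0 →
    -((q.nx - q.k) * w) - (1 - q.X) * w ^ 2 / 2 + w ^ 3 / 3 + st q.ny q.Y v + f4 w d ≤ q.W'
  z : ∀ w s : ℝ, 0 ≤ w → w ≤ 13 / 20 → w ≤ s → s ≤ 1 →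
    mj (q.nx - q.k) (1 - q.X) q.X s + vm w ≤ q.W'
  c : ∀ w s r : ℝ, 0 ≤ w → w ≤ 13 / 20 → w ≤ s → s ≤ 1 → s ≤ r → r ≤ 1 + q.X - q.Y →
    mj q.nx (1 - q.X) q.X s + mj (q.ny - q.k) (1 - q.Y) q.X r + vm w ≤ q.W'

/-! ### Slots -/

theorem sx_np {c d u : ℝ} (hc : 0 ≤ c) (d1 : d ≤ 3 / 5) (lo : -(1 - d) ≤ u) (h : u ≤ 0) :
    sx c d u ≤ 0 :=
  (sx_le_lin lo h).trans (mul_nonpos_of_nonneg_of_nonpos hc h)

theorem sx_zero (c d : ℝ) : sx c d 0 = 0 := by
  rw [sx_of_nonneg le_rfl (by norm_num)]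
  ring

theorem V_le (q : Q2) {u v : ℝ} (h : v ≤ u) : q.V u v = sx q.nx q.X u + sx (q.ny - q.k) q.Y v := by
  unfold Q2.V V2
  rw [min_eq_right h, sx_sub]
  ring

theorem V_ge (q : Q2) {u v : ℝ} (h : u ≤ v) : q.V u v = sx (q.nx - q.k) q.X u + sx q.ny q.Y v := by
  unfold Q2.V V2
  rw [min_eq_left h, sx_sub]
  ring

/-- a negative entry of `y` is raised to zero -/
theorem V_up {q : Q2} (g : Sg q) {u v : ℝ} (b : Bu q u v) : q.V u v ≤ q.V u (max v 0) := by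
  have k0 := g.k0
  have hy : 0 ≤ q.ny - q.k := sub_nonneg.2 g.ky
  rcases le_total 0 v with h | h
  · rw [max_eq_left h]
  · rw [max_eq_right h]
    rcases le_total u v with h1 | h1
    · rw [V_ge q h1, V_ge q (h1.trans h), sx_zero]
      have := sx_np (c := q.ny) (by linarith) g.Y1 b.v0 h
      linarith
    · rw [V_le q h1]
      have h2 := sx_np hy g.Y1 b.v0 h
      unfold Q2.V V2
      rw [sx_zero]
      have h3 : q.k * min u 0 ≤ 0 := mul_nonpos_of_nonneg_of_nonpos k0 (min_le_right _ _)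
      linarith

theorem Bu.up {q : Q2} (g : Sg q) {u v : ℝ} (b : Bu q u v) : Bu q u (max v 0) := by
  have := g.Y1
  exact ⟨b.u0, b.u1, le_trans (by linarith) (le_max_right _ _), max_le b.v1 (by norm_num)⟩

/-! ### Volumes -/

theorem vl_r1 {w A B : ℝ} (h1 : w ≤ A) (h2 : w ≤ B) : vl w A B = w * A * B - w ^ 3 / 3 := by
  rw [vl, max_eq_right (by linarith), max_eq_right (by linarith)]
  ring

theorem vl_r2 {w A B : ℝ} (h1 : A ≤ w) (h2 : w ≤ B) :
    vl w A B = w * A * B - w ^ 2 * A + w * A ^ 2 - A ^ 3 / 3 := by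
  rw [vl, max_eq_left (by linarith), max_eq_right (by linarith)]
  ring

theorem vl_r3 {w A B : ℝ} (h1 : w ≤ A) (h2 : B ≤ w) :
    vl w A B = w * A * B - w ^ 2 * B + w * B ^ 2 - B ^ 3 / 3 := by
  rw [vl, max_eq_right (by linarith), max_eq_left (by linarith)]
  ring

theorem vl_r4 {w A B : ℝ} (h1 : A ≤ w) (h2 : B ≤ w) :
    vl w A B = w * A * B - w ^ 3 / 3 + ((w - A) ^ 3 + (w - B) ^ 3) / 3 := by
  rw [vl, max_eq_left (by linarith), max_eq_left (by linarith)]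

/-- the volume of an own far cell with the cap `1 - A`, the height dropped, `A ≤ 1` -/
theorem vl_a0 {w A B : ℝ} (F : Fo w A B) (h : A ≤ 1) : vl w A B ≤ vl w A (1 + w - A) :=
  vl_mono_r F.w0 F.A0 F.B0 F.s2 (by linarith [F.s1])

theorem vl_f4 {w A B : ℝ} (F : Fo w A B) : vl w A B ≤ f4 w (1 + w - A - B) := by
  have h := vl_mid34 F.w0 F.A0 F.B0 F.s2
  have s0 := F.s0
  have s1 := F.s1
  have w0 := F.w0
  have h1 : (max (w - (A + B) / 2) 0) ^ 3 ≤ (w / 2) ^ 3 :=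
    pow_le_pow_left₀ (le_max_right _ _) (max_le (by linarith) (by linarith)) 3
  have e : f4 w (1 + w - A - B) = w * (A + B) ^ 2 / 4 - w ^ 3 / 4 := by
    unfold f4
    ring
  rw [e]
  have e2 : (w / 2) ^ 3 = w ^ 3 / 8 := by ring
  rw [e2] at h1
  linarith

theorem Fo.vm {w A B : ℝ} (F : Fo w A B) : vl w A B ≤ vm w := vl_vm F.w0 F.w1 F.A0 F.B0 F.s2 F.s1

/-! ### The states without `C` -/

/-- **no far cell** -/
theorem sn_of {q : Q2} (g : Sg q) (h : LB q) (h' : LB q.swap) :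
    ∀ u v : ℝ, Bu q u v → q.V u v ≤ q.W' := by
  have key : ∀ {q : Q2}, Sg q → LB q → ∀ u v : ℝ, Bu q u v → 0 ≤ u → 0 ≤ v → v ≤ u →
      q.V u v ≤ q.W' := by
    intro q g h u v b hu hv hvu
    rw [V_le q hvu, sx_eq_st hu b.u1, sx_eq_st hv b.v1]
    exact h.n u v hu b.u1 hv b.v1 hvu
  intro u v b
  have e1 := V_up g b
  have b1 := b.up g
  have e2 := V_up g.swap b1.swap
  have b2 := (b1.swap).up g.swap
  rw [q.V_swap] at e2
  refine e1.trans (e2.trans ?_)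
  rcases le_total (max v 0) (max u 0) with h1 | h1
  · have := key g h _ _ b2.swap (le_max_right _ _) (le_max_right _ _) h1
    rw [← q.V_swap] at this
    exact this
  · exact key g.swap h' _ _ b2 (le_max_right _ _) (le_max_right _ _) h1

/-- the entry of `y` is the lower one -/
private theorem cz_of {q : Q2} (g : Sg q) (h : LB q) {w A B u v : ℝ} (F : Fo w A B) (b : Bu q u v)
    (hu : u ≤ -w + max (q.X - (1 + w - A - B)) 0) (hvu : v ≤ u) :
    q.V u v + vl w A B ≤ q.W' := by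
  have X0 := g.X0
  have w0 := F.w0
  have s1 := F.s1
  have e : u ≤ q.X - w := by
    rcases le_total (q.X - (1 + w - A - B)) 0 with h1 | h1
    · rw [max_eq_right h1] at hu
      linarith
    · rw [max_eq_left h1] at hu
      linarith
  rw [V_le q hvu]
  have h1 := sx_le_mj (X := q.nx) (d := q.X) (u := u) X0 (s := q.X - u) (by linarith) rfl b.u1
  have h2 := sx_le_mj (X := q.ny - q.k) (d := q.Y) (u := v) X0 (s := q.X - v) (by linarith) rfl b.v1
  have h3 := h.c w (q.X - u) (q.X - v) w0 F.w1 (by linarith) (by linarith [b.u0]) (by linarith)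
    (by linarith [b.v0])
  have h4 := F.vm
  linarith

/-- **an own far cell of kind A** -/
theorem sx_of {q : Q2} (g : Sg q) (h : LB q) : ∀ w A B u v : ℝ, Fo w A B → Bu q u v →
    u ≤ -w + max (q.X - (1 + w - A - B)) 0 → v ≤ 1 - A + q.Y → q.V u v + vl w A B ≤ q.W' := by
  intro w A B u v F b hu hv
  rcases le_total v u with hvu | hvu
  · exact cz_of g h F b hu hvu
  have X0 := g.X0
  have Y0 := g.Y0
  have w0 := F.w0
  have w1 := F.w1
  have s1 := F.s1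
  have e : u ≤ q.X - w := by
    rcases le_total (q.X - (1 + w - A - B)) 0 with h1 | h1
    · rw [max_eq_right h1] at hu
      linarith
    · rw [max_eq_left h1] at hu
      linarith
  rw [V_ge q hvu]
  have h1 := sx_le_mj (X := q.nx - q.k) (d := q.X) (u := u) X0 (s := q.X - u) (by linarith) rfl b.u1
  have h2 := sx_le_st (c := q.ny) (d := q.Y) (u := v)
    ⟨by linarith [g.k0, g.ky], g.Y0, g.Y1, b.v0, b.v1⟩
  have s0 : w ≤ q.X - u := by linarith
  have s2 : q.X - u ≤ 1 := by linarith [b.u0]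
  have v1 : max v 0 ≤ 1 := max_le b.v1 (by norm_num)
  -- the number `a ≤ 1` in place of `A`
  have key : ∃ a : ℝ, 0 ≤ a ∧ a ≤ 1 ∧ vl w A B ≤ vl w a (1 + w - a) ∧ max v 0 ≤ 1 - a + q.Y := by
    rcases le_total A 1 with hA | hA
    · exact ⟨A, F.A0, hA, vl_a0 F hA, max_le hv (by linarith)⟩
    · refine ⟨1, by norm_num, le_rfl, ?_, max_le (by linarith) (by linarith)⟩
      have h3 := vl_mono_r F.w0 F.A0 F.B0 F.s2 (B' := 1 + w - A) (by linarith)
      have h4 := vl_spread34 (w := w) (A := 1 + w - A) (B := A) (a := w) (b := 1) F.w0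
        (by linarith [F.B0]) (by linarith) (by linarith) (by linarith) (by ring)
      rw [vl_comm w (1 + w - A) A, vl_comm w w 1] at h4
      have e5 : 1 + w - 1 = w := by ring
      rw [e5]
      linarith
  obtain ⟨a, a0, a1, hvl, hva⟩ := key
  rcases le_total w a with hwa | hwa
  · have h3 := h.a1 w a (q.X - u) (max v 0) w0 w1 s0 s2 (le_max_right _ _) v1 hva hwa a1
    have h4 : vl w a (1 + w - a) = w * (1 + w - a) * a - w ^ 3 / 3 := by
      rw [vl_r1 hwa (by linarith)]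
      ring
    linarith
  · have h3 := h.a2 w a (q.X - u) (max v 0) w0 w1 s0 s2 (le_max_right _ _) v1 hva a0 hwa
    have h4 : vl w a (1 + w - a) = w * (1 + w - a) * a - (w ^ 3 - (w - a) ^ 3) / 3 := by
      rw [vl_r2 hwa (by linarith)]
      ring
    linarith

/-- **an own far cell of kind B** -/
theorem sxb_of {q : Q2} (g : Sg q) (h : LB q) : ∀ w A B u v : ℝ, Fo w A B → Bu q u v →
    u ≤ -w + max (q.X - (1 + w - A - B)) 0 → 0 ≤ q.X - (1 + w - A - B) + (v - min u v) →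
    q.V u v + vl w A B - q.K * (q.X - (1 + w - A - B) + (v - min u v)) ≤ q.W' := by
  intro w A B u v F b hu hs
  have X0 := g.X0
  have Y0 := g.Y0
  have w0 := F.w0
  have w1 := F.w1
  have s1 := F.s1
  have K0 := g.K0
  have hK : 0 ≤ q.K * (q.X - (1 + w - A - B) + (v - min u v)) := mul_nonneg K0 hs
  rcases le_total v u with hvu | hvu
  · have := cz_of g h F b hu hvu
    linarith
  have e : u ≤ q.X - w := by
    rcases le_total (q.X - (1 + w - A - B)) 0 with h1 | h1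
    · rw [max_eq_right h1] at hu
      linarith
    · rw [max_eq_left h1] at hu
      linarith
  rw [V_ge q hvu]
  have h1 := sx_le_mj (X := q.nx - q.k) (d := q.X) (u := u) X0 (s := q.X - u) (by linarith) rfl b.u1
  have h2 := sx_le_st (c := q.ny) (d := q.Y) (u := v)
    ⟨by linarith [g.k0, g.ky], g.Y0, g.Y1, b.v0, b.v1⟩
  have s0 : w ≤ q.X - u := by linarith
  have s2 : q.X - u ≤ 1 := by linarith [b.u0]
  have hvm := F.vm
  rcases le_total v 0 with hv0 | hv0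
  · have h3 := h.z w (q.X - u) w0 w1 s0 s2
    rw [max_eq_right hv0, st_zero] at h2
    linarith
  rw [max_eq_left hv0] at h2
  rw [min_eq_left hvu] at hK ⊢
  rcases le_total (1 + w - A - B) q.X with hd | hd
  · rw [max_eq_left (by linarith : (0 : ℝ) ≤ q.X - (1 + w - A - B))] at hu
    have h3 := h.b1 w (q.X - u) v w0 w1 s0 s2 hv0 b.v1
    have h4 : q.K * (v + w) ≤ q.K * (q.X - (1 + w - A - B) + (v - u)) :=
      mul_le_mul_of_nonneg_left (by linarith) K0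
    linarith
  · rw [max_eq_right (by linarith : q.X - (1 + w - A - B) ≤ 0), add_zero] at hu
    have kx : 0 ≤ q.nx - q.k := sub_nonneg.2 g.kx
    have X1 := g.X1
    have h5 : sx (q.nx - q.k) q.X u ≤ sx (q.nx - q.k) q.X (-w) :=
      sx_mono kx (by linarith) b.u0 b.u1 hu (by nlinarith)
    have h6 : sx (q.nx - q.k) q.X (-w) =
        -((q.nx - q.k) * w) - (1 - q.X) * w ^ 2 / 2 + w ^ 3 / 3 := by
      rw [sx_of_nonpos (by linarith)]
      ring
    have h7 := vl_f4 F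
    rcases le_total 0 (q.X - (1 + w - A - B) + v + w) with h8 | h8
    · have h3 := h.b2 w (1 + w - A - B) v w0 w1 hd (by linarith [F.s0]) hv0 b.v1 h8
      have h4 : q.K * (q.X - (1 + w - A - B) + v + w) ≤
          q.K * (q.X - (1 + w - A - B) + (v - u)) :=
        mul_le_mul_of_nonneg_left (by linarith) K0
      linarith
    · have h3 := h.b3 w (1 + w - A - B) v w0 w1 hd (by linarith [F.s0]) hv0 b.v1 h8
      linarith

/-- **`Base1` from the list** -/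
theorem base1_of {q : Q2} (g : Sg q) (h : LB q) (h' : LB q.swap) (Q : ℝ → ℝ → Prop) :
    Base1 q.nx q.ny q.k q.K q.X q.Y q.W' Q where
  n := fun u v ru rv _ => sn_of g h h' u v (bu_of ru rv)
  a := fun u v w A B ru rv _ w0 w1 A0 B0 s0 s1 hu hv =>
    sx_of g h w A B u v ⟨w0.le, w1, A0, B0, s0, s1⟩ (bu_of ru rv) hu hv
  b := fun u v w A B ru rv _ w0 w1 A0 B0 s0 s1 hu _ hs =>
    sxb_of g h w A B u v ⟨w0.le, w1, A0, B0, s0, s1⟩ (bu_of ru rv) hu hs

/-! ### `C` alone -/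

private theorem lc_cy {q : Q2} {qx qy : Prop} {w A B φ : ℝ} (g : Sg q) (h : LC q qx qy w A B φ)
    (C : Ce w A B) {u v : ℝ} (b : Bu q u v) (hu : qx → u ≤ 1 - A + q.X) (hq : qy)
    (hv : v ≤ 1 - B + q.Y) (hB : 1 + q.Y ≤ B) : q.V u v + vl w A B ≤ q.W + φ := by
  have X0 := g.X0
  have Y0 := g.Y0
  have Y1 := g.Y1
  have w1 := C.w1
  have s1 := C.s1
  have hAw : A ≤ w := by linarith
  have e1 := V_up g.swap b.swap
  have b1 := (b.swap).up g.swap
  rw [q.V_swap, q.V_swap] at e1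
  have b2 : Bu q (max u 0) v := b1.swap
  have hvu : v ≤ max u 0 := le_trans (by linarith) (le_max_right _ _)
  rw [V_le q hvu, sx_eq_st (le_max_right _ _) b2.u1] at e1
  have ky : 0 ≤ q.ny - q.k := sub_nonneg.2 g.ky
  have h5 : sx (q.ny - q.k) q.Y v ≤ sx (q.ny - q.k) q.Y (-(B - 1 - q.Y)) :=
    sx_mono ky (by linarith) b.v0 b.v1 (by linarith)
      (by nlinarith [mul_nonneg (by linarith : (0:ℝ) ≤ 1 - q.Y) (by linarith : (0:ℝ) ≤ B - 1 - q.Y)])
  have h6 : sx (q.ny - q.k) q.Y (-(B - 1 - q.Y)) = -((q.ny - q.k) * (B - 1 - q.Y))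
      - (1 - q.Y) * (B - 1 - q.Y) ^ 2 / 2 + (B - 1 - q.Y) ^ 3 / 3 := by
    rw [sx_of_nonpos (by linarith)]
    ring
  have h7 := h.cy hq hB (by linarith [b.v0]) hAw (max u 0) (le_max_right _ _) b2.u1
    (fun k => max_le (hu k) (by linarith))
  linarith

private theorem lc_pos {q : Q2} {qx qy : Prop} {w A B φ : ℝ} (h : LC q qx qy w A B φ)
    {u v : ℝ} (b : Bu q u v) (hu : qx → u ≤ 1 - A + q.X) (hv : qy → v ≤ 1 - B + q.Y)
    (u0 : 0 ≤ u) (v0 : 0 ≤ v) (hvu : v ≤ u) :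
    q.V u v + vl w A B ≤ q.W + φ := by
  rw [V_le q hvu, sx_eq_st u0 b.u1, sx_eq_st v0 b.v1]
  exact h.c u v u0 b.u1 v0 b.v1 hvu hu hv

/-- **`C` alone**: the field `c` of `St1` -/
theorem c_of {q : Q2} {qx qy : Prop} {w A B φ : ℝ} (g : Sg q) (C : Ce w A B)
    (h : LC q qx qy w A B φ) (h' : LC q.swap qy qx w B A φ) {u v : ℝ} (b : Bu q u v)
    (hu : qx → u ≤ 1 - A + q.X) (hv : qy → v ≤ 1 - B + q.Y) :
    q.V u v + vl w A B ≤ q.W + φ := by
  by_cases hB : qy ∧ 1 + q.Y ≤ B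
  · exact lc_cy g h C b hu hB.1 (hv hB.1) hB.2
  by_cases hA : qx ∧ 1 + q.X ≤ A
  · have := lc_cy g.swap h' C.swap b.swap hv hA.1 (hu hA.1) hA.2
    rw [q.V_swap, vl_comm] at this
    exact this
  · have e1 := V_up g b
    have b1 := b.up g
    have e2 := V_up g.swap b1.swap
    have b2 := (b1.swap).up g.swap
    rw [q.V_swap] at e2
    have hu' : qx → max u 0 ≤ 1 - A + q.X := fun k => by
      rcases le_total (1 + q.X) A with h1 | h1
      · exact absurd ⟨k, h1⟩ hA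
      · exact max_le (hu k) (by linarith)
    have hv' : qy → max v 0 ≤ 1 - B + q.Y := fun k => by
      rcases le_total (1 + q.Y) B with h1 | h1
      · exact absurd ⟨k, h1⟩ hB
      · exact max_le (hv k) (by linarith)
    rcases le_total (max v 0) (max u 0) with h1 | h1
    · have := lc_pos h b2.swap hu' hv' (le_max_right _ _) (le_max_right _ _) h1
      rw [← q.V_swap] at this
      exact le_trans (by linarith) this
    · have := lc_pos h' b2 hv' hu' (le_max_right _ _) (le_max_right _ _) h1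
      rw [vl_comm] at this
      exact le_trans (by linarith) this

end Pool.Agent.Helper36.TX
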